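import Pool.Agent.Q100.SickSt

/-!
# MP_013c33: the Stone space of the clopen algebra of a sick compact space is sick

The definitions are in `Pool/Agent/Q100/SickStDefs.lean`, `Pool/Agent/Q100/SickDefs.lean` and
`Pool/Agent/Q100/BL.lean` (Banach lattices).
-/

set_option autoImplicit false

namespace Pool.Agent.Results.MP_013c33_an.StoneClopSick

open Q100.Sick

universe u v

/-- If `K` is a sick compact space, then the Stone space of `Clop(K)` is a compact Hausdorff space
and it is sick. -/
theorem result (K : Type u) [TopologicalSpace K] [CompactSpace K] (hK : Sick.{u, v} K) :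
    CompactSpace (StClop K) ∧ T2Space (StClop K) ∧ Sick.{u, v} (StClop K) :=
  ⟨inferInstance, inferInstance, sick_stClop hK⟩

end Pool.Agent.Results.MP_013c33_an.StoneClopSick
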